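import Pool.Agent.MTF.Pow

/-!
# MTS : the statement of the Moore–Tachikawa conjecture, part A : groups and Lie algebras

* `AffGrp` : complex affine algebraic groups (points + regular functions).
* `Lie G` : the Lie algebra (point derivations at `1`), `Ad`, `br`, `killing`, `Principal`.
* `G.pow I` : the group `G^I`.
-/

namespace Pool.Agent.MTS

/-- `φ` is a homomorphism of `ℂ`-algebras. -/
def IsHom {A B : Type} [CommRing A] [Algebra ℂ A] [CommRing B] [Algebra ℂ B] (φ : A → B) : Prop :=
  φ 1 = 1 ∧ (∀ a b, φ (a + b) = φ a + φ b) ∧ (∀ a b, φ (a * b) = φ a * φ b) ∧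
    ∀ (c : ℂ) a, φ (c • a) = c • φ a

/-- The group `X` with the algebra `O` of regular functions is an affine algebraic group. -/
structure IsAff {X : Type} [Group X] (O : Subalgebra ℂ (X → ℂ)) : Prop where
  fg : O.FG
  /-- every character of `O` is the evaluation at a point -/
  pts : ∀ φ : O → ℂ, IsHom φ → ∃ x : X, ∀ f : O, φ f = f.1 x
  /-- the regular functions separate the points -/
  sep : ∀ x y : X, (∀ f ∈ O, f x = f y) → x = y
  /-- the multiplication is a morphism -/
  mul : ∀ f ∈ O, ∃ (n : ℕ) (a b : Fin n → O), ∀ x y : X, f (x * y) = ∑ i, (a i).1 x * (b i).1 y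
  /-- the inversion is a morphism -/
  inv : ∀ f ∈ O, (fun x : X => f x⁻¹) ∈ O

/-- A complex affine algebraic group: the group `X` of its points and the algebra `O` of its
regular functions. -/
structure AffGrp where
  X : Type
  [grp : Group X]
  O : Subalgebra ℂ (X → ℂ)
  aff : IsAff O

attribute [instance] AffGrp.grp

/-- `G` in the form used in the proof -/
def AffGrp.old (G : AffGrp) : MTF.AffGrp where
  X := G.X
  O := G.O
  fg := G.aff.fg
  pts φ := G.aff.pts φ ⟨map_one φ, map_add φ, map_mul φ, map_smul φ⟩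
  sep := G.aff.sep
  mul_mem := G.aff.mul
  inv_mem := G.aff.inv

section group
variable (G : AffGrp)

/-- The regular functions on `G`. -/
def Fn : Type := G.O

instance : Mul (Fn G) := (inferInstance : Mul G.O)
instance : AddCommGroup (Fn G) := (inferInstance : AddCommGroup G.O)
instance : Module ℂ (Fn G) := (inferInstance : Module ℂ G.O)

variable {G}

/-- the value of a regular function at a point -/
def ev (f : Fn G) (x : G.X) : ℂ := f.1 x

/-- the regular function `f` -/
def mkF (f : G.X → ℂ) (h : f ∈ G.O) : Fn G := ⟨f, h⟩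

theorem lt_mem (x : G.X) (f : Fn G) : (fun y => ev f (x * y)) ∈ G.O := G.old.left_mem x f.2

theorem cj_mem (x : G.X) (f : Fn G) : (fun y => ev f (x * y * x⁻¹)) ∈ G.O := (G.old.cj x f).2

/-- `y ↦ f (x y)` -/
def lt (x : G.X) (f : Fn G) : Fn G := mkF _ (lt_mem x f)

/-- `y ↦ f (x y x⁻¹)` -/
def cj (x : G.X) (f : Fn G) : Fn G := mkF _ (cj_mem x f)

/-- the Leibniz rule at `1` -/
def IsDer (D : Fn G → ℂ) : Prop := ∀ f g, D (f * g) = ev f 1 * D g + ev g 1 * D f

theorem IsDer.add {D E : Module.Dual ℂ (Fn G)} (h : IsDer D) (h' : IsDer E) :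
    IsDer ⇑(D + E) := by
  intro f g
  simp only [LinearMap.add_apply, h f g, h' f g]
  ring

theorem IsDer.zero : IsDer ⇑(0 : Module.Dual ℂ (Fn G)) := by
  intro f g
  simp

theorem IsDer.smul (c : ℂ) {D : Module.Dual ℂ (Fn G)} (h : IsDer D) : IsDer ⇑(c • D) := by
  intro f g
  simp only [LinearMap.smul_apply, h f g, smul_eq_mul]
  ring

variable (G)

/-- The Lie algebra of `G` as a space of linear forms: the point derivations at `1`. -/
def LieS : Submodule ℂ (Module.Dual ℂ (Fn G)) where
  carrier := {D | IsDer D}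
  add_mem' := IsDer.add
  zero_mem' := IsDer.zero
  smul_mem' := IsDer.smul

/-- The Lie algebra of `G`. -/
def Lie : Type := LieS G

instance : AddCommGroup (Lie G) := (inferInstance : AddCommGroup (LieS G))
instance : Module ℂ (Lie G) := (inferInstance : Module ℂ (LieS G))

variable {G}

/-- `D f` -/
def ap (D : Lie G) (f : Fn G) : ℂ := D.1 f

/-- The element `D` of the Lie algebra. -/
def mkL (D : Fn G → ℂ) (h1 : IsLinearMap ℂ D) (h2 : IsDer D) : Lie G := ⟨h1.mk' D, h2⟩

theorem Ad_lin (x : G.X) (D : Lie G) : IsLinearMap ℂ (fun f => ap D (cj x f)) :=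
  ⟨(G.old.Ad x D).1.map_add, (G.old.Ad x D).1.map_smul⟩

theorem Ad_der (x : G.X) (D : Lie G) : IsDer (fun f => ap D (cj x f)) := (G.old.Ad x D).2

/-- The adjoint action: `(Ad x D) f = D (y ↦ f (x y x⁻¹))`. -/
def Ad (x : G.X) (D : Lie G) : Lie G := mkL _ (Ad_lin x D) (Ad_der x D)

theorem der_mem (D : Lie G) (f : Fn G) : (fun x => ap D (lt x f)) ∈ G.O := (G.old.der D f).2

/-- The derivative of `f` along the left invariant vector field `D`: `x ↦ D (y ↦ f (x y))`. -/
def der (D : Lie G) (f : Fn G) : Fn G := mkF _ (der_mem D f)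

theorem br_lin (D E : Lie G) : IsLinearMap ℂ (fun f => ap D (der E f) - ap E (der D f)) :=
  ⟨(G.old.br D E).1.map_add, (G.old.br D E).1.map_smul⟩

theorem br_der (D E : Lie G) : IsDer (fun f => ap D (der E f) - ap E (der D f)) :=
  (G.old.br D E).2

/-- The Lie bracket. -/
def br (D E : Lie G) : Lie G := mkL _ (br_lin D E) (br_der D E)

theorem ad_lin (D : Lie G) : IsLinearMap ℂ (br D) :=
  ⟨(G.old.ad D).map_add, (G.old.ad D).map_smul⟩

/-- `ad D` -/
def ad (D : Lie G) : Lie G →ₗ[ℂ] Lie G := (ad_lin D).mk' (br D)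

/-- The Killing form. -/
noncomputable def killing (D E : Lie G) : ℂ := LinearMap.trace ℂ (Lie G) (ad D ∘ₗ ad E)

/-- `(e, h, f)` is a principal `sl_2`-triple: the centraliser of `e` has the least possible
dimension. -/
def Principal (e h f : Lie G) : Prop :=
  br h e = (2 : ℂ) • e ∧ br h f = (-2 : ℂ) • f ∧ br e f = h ∧
    ∀ x : Lie G, Module.finrank ℂ (LinearMap.ker (ad e)) ≤ Module.finrank ℂ (LinearMap.ker (ad x))

end group

section pow
variable (G : AffGrp)

/-- The regular functions on `G^I`: generated by the `x ↦ f (x i)`. -/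
def powO (I : Type) : Subalgebra ℂ ((I → G.X) → ℂ) :=
  Algebra.adjoin ℂ {F | ∃ (i : I) (f : Fn G), F = fun x => ev f (x i)}

theorem pow_aff (I : Type) [Finite I] : IsAff (powO G I) where
  fg := (G.old.pow I).fg
  pts φ h := (G.old.pow I).pts
    { toFun := φ
      map_one' := h.1
      map_mul' := h.2.2.1
      map_zero' := by
        have := h.2.2.2 0 0
        rwa [zero_smul, zero_smul] at this
      map_add' := h.2.1
      commutes' := fun c => by
        have h2 := h.2.2.2 c 1
        rw [h.1] at h2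
        have h3 : φ (algebraMap ℂ (powO G I) c) = c := by simpa [Algebra.smul_def] using h2
        exact h3 }
  sep := (G.old.pow I).sep
  mul := (G.old.pow I).mul_mem
  inv := (G.old.pow I).inv_mem

/-- the group `G^I` -/
def AffGrp.pow (I : Type) [Finite I] : AffGrp where
  X := I → G.X
  O := powO G I
  aff := pow_aff G I

end pow

section maps
variable (G : AffGrp) {I J : Type} [Finite I] [Finite J]

/-- The homomorphism `G^J → G^I`, `y ↦ y ∘ u`. -/
def rb (u : I → J) (y : (G.pow J).X) : (G.pow I).X := fun i => y (u i)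

theorem pre_mem (u : I → J) (f : Fn (G.pow I)) : (fun y => ev f (rb G u y)) ∈ (G.pow J).O := by
  obtain ⟨F, hF⟩ := f
  change (fun y : J → G.X => F (y ∘ u)) ∈ powO G J
  change F ∈ powO G I at hF
  unfold powO at hF ⊢
  induction hF using Algebra.adjoin_induction with
  | mem F hF =>
    obtain ⟨i, f, rfl⟩ := hF
    exact Algebra.subset_adjoin ⟨u i, f, rfl⟩
  | algebraMap c => exact Subalgebra.algebraMap_mem _ c
  | add F F' _ _ ih ih' => exact Subalgebra.add_mem _ ih ih'
  | mul F F' _ _ ih ih' => exact Subalgebra.mul_mem _ ih ih'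

/-- the pullback `f ↦ (y ↦ f (y ∘ u))` -/
def pre (u : I → J) (f : Fn (G.pow I)) : Fn (G.pow J) := mkF _ (pre_mem G u f)

theorem lmap_lin (u : I → J) (D : Lie (G.pow J)) : IsLinearMap ℂ (fun f => ap D (pre G u f)) :=
  ⟨fun f g => D.1.map_add (pre G u f) (pre G u g), fun c f => D.1.map_smul c (pre G u f)⟩

theorem lmap_der (u : I → J) (D : Lie (G.pow J)) : IsDer (fun f => ap D (pre G u f)) :=
  fun f g => D.2 (pre G u f) (pre G u g)

/-- The derivative `Lie (G^J) → Lie (G^I)` of the homomorphism `y ↦ y ∘ u`. -/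
def lmap (u : I → J) (D : Lie (G.pow J)) : Lie (G.pow I) :=
  mkL _ (lmap_lin G u D) (lmap_der G u D)

/-- the point `x i` -/
def pt (i : I) (x : (G.pow I).X) : G.X := x i

theorem pull_mem (i : I) (f : Fn G) : (fun x => ev f (pt G i x)) ∈ (G.pow I).O :=
  (G.old.pull i f).2

/-- the pullback `f ↦ (x ↦ f (x i))` -/
def pull (i : I) (f : Fn G) : Fn (G.pow I) := mkF _ (pull_mem G i f)

theorem lpr_lin (i : I) (D : Lie (G.pow I)) : IsLinearMap ℂ (fun f => ap D (pull G i f)) :=
  ⟨fun f g => D.1.map_add (pull G i f) (pull G i g), fun c f => D.1.map_smul c (pull G i f)⟩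

theorem lpr_der (i : I) (D : Lie (G.pow I)) : IsDer (fun f => ap D (pull G i f)) :=
  fun f g => D.2 (pull G i f) (pull G i g)

/-- The derivative `Lie (G^I) → Lie G` of the projection `x ↦ x i`. -/
def lpr (i : I) (D : Lie (G.pow I)) : Lie G := mkL _ (lpr_lin G i D) (lpr_der G i D)

end maps

end Pool.Agent.MTS
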