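import Pool.Agent.MTS.A

/-!
# MTS : the statement of the Moore–Tachikawa conjecture, part B : the category `MT`

* `PAlg` : affine Poisson schemes of finite type, given by their algebras of functions.
* `Ham G H` : affine Poisson schemes of finite type with an action of `G × H`, `G` acting
  Hamiltonianly and `H` acting Hamiltonianly for the negated bracket (representatives of the
  morphisms `G → H` of the category `MT`).
* `Ham.Iso` : equality of morphisms of `MT`, `Ham.neg` : the opposite.
* `IsComp M N P` : `P` is the Hamiltonian reduction `(M × N) //_0 H`.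
* `InMT P` : `P` is an integral variety whose Poisson structure is generically symplectic.
-/

namespace Pool.Agent.MTS

open TensorProduct

/-- `br` is a Poisson bracket on the algebra `A`. -/
structure IsPois {A : Type} [CommRing A] [Algebra ℂ A] (br : A → A → A) : Prop where
  add : ∀ a b c, br a (b + c) = br a b + br a c
  smul : ∀ (t : ℂ) (a b : A), br a (t • b) = t • br a b
  anti : ∀ a b, br a b = - br b a
  jacobi : ∀ a b c, br a (br b c) = br (br a b) c + br b (br a c)
  leibniz : ∀ a b c, br a (b * c) = b * br a c + c * br a b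

/-- An affine Poisson scheme of finite type over `ℂ`. -/
structure PAlg where
  A : Type
  [ring : CommRing A]
  [alg : Algebra ℂ A]
  ft : Algebra.FiniteType ℂ A
  br : A → A → A
  pois : IsPois br

attribute [instance] PAlg.ring PAlg.alg

/-- `act` is an algebraic action of `G × H` on the affine Poisson scheme `M`, such that `G` acts
Hamiltonianly on `M` with moment map `μ` and `H` acts Hamiltonianly on `M^op` with moment map `ν`.
`act g h a` is the function `m ↦ a ((g, h)⁻¹ m)`, `μ D` is the function `m ↦ μ(m)(D)`. -/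
structure IsHam {G H : AffGrp} (M : PAlg) (act : G.X → H.X → M.A → M.A) (μ : Lie G → M.A)
    (ν : Lie H → M.A) : Prop where
  one : ∀ a, act 1 1 a = a
  mul : ∀ g h g' h' a, act g h (act g' h' a) = act (g * g') (h * h') a
  hom : ∀ g h, IsHom (act g h)
  br : ∀ g h a b, act g h (M.br a b) = M.br (act g h a) (act g h b)
  /-- the action is algebraic -/
  rat : ∀ a, ∃ (n : ℕ) (f : Fin n → Fn G) (f' : Fin n → Fn H) (c : Fin n → M.A),
    ∀ g h, act g h a = ∑ i, (ev (f i) g * ev (f' i) h) • c i
  /-- the moment maps are linear in the element of the Lie algebra -/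
  μ_lin : IsLinearMap ℂ μ
  ν_lin : IsLinearMap ℂ ν
  /-- the moment maps are equivariant -/
  μ_eq : ∀ g h D, act g h (μ D) = μ (Ad g D)
  ν_eq : ∀ g h D, act g h (ν D) = ν (Ad h D)
  /-- `{μ D, a}` is the derivative of `g ↦ act g 1 a` at `1` in the direction `D` -/
  μ_gen : ∀ D a (n : ℕ) (f : Fin n → Fn G) (c : Fin n → M.A),
    (∀ g, act g 1 a = ∑ i, ev (f i) g • c i) → M.br (μ D) a = ∑ i, ap D (f i) • c i
  /-- `-{ν D, a}` is the derivative of `h ↦ act 1 h a` at `1` in the direction `D` -/
  ν_gen : ∀ D a (n : ℕ) (f : Fin n → Fn H) (c : Fin n → M.A),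
    (∀ h, act 1 h a = ∑ i, ev (f i) h • c i) → - M.br (ν D) a = ∑ i, ap D (f i) • c i

/-- An affine Poisson scheme `M` of finite type with an algebraic action of `G × H`, such that `G`
acts Hamiltonianly on `M` (moment map `μ`) and `H` acts Hamiltonianly on `M^op` (moment map `ν`). -/
structure Ham (G H : AffGrp) where
  M : PAlg
  act : G.X → H.X → M.A → M.A
  μ : Lie G → M.A
  ν : Lie H → M.A
  ham : IsHam M act μ ν

section opposite

/-- Equality of morphisms of `MT`: equivariant Poisson isomorphism intertwining moment maps. -/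
def Ham.Iso {G H : AffGrp} (M N : Ham G H) : Prop :=
  ∃ e : M.M.A → N.M.A, Function.Bijective e ∧ IsHom e ∧
    (∀ a b, e (M.M.br a b) = N.M.br (e a) (e b)) ∧
    (∀ g h a, e (M.act g h a) = N.act g h (e a)) ∧ (∀ D, e (M.μ D) = N.μ D) ∧
    ∀ D, e (M.ν D) = N.ν D

theorem PAlg.br_zero (M : PAlg) (b : M.A) : M.br b 0 = 0 := by
  have := M.pois.smul 0 b 0
  rwa [zero_smul, zero_smul] at this

theorem PAlg.br_neg (M : PAlg) (a b : M.A) : M.br a (- b) = - M.br a b := by
  have := M.pois.smul (-1) a b
  rwa [neg_one_smul, neg_one_smul] at this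

theorem PAlg.neg_br (M : PAlg) (a b : M.A) : M.br (- a) b = - M.br a b := by
  rw [M.pois.anti, M.br_neg, M.pois.anti b a, neg_neg]

theorem neg_pois (M : PAlg) : IsPois (fun a b => - M.br a b) where
  add a b c := by rw [M.pois.add, neg_add]
  smul t a b := by rw [M.pois.smul, smul_neg]
  anti a b := by rw [M.pois.anti a b]
  jacobi a b c := by
    rw [M.br_neg, M.br_neg, M.neg_br, neg_neg, neg_neg, neg_neg, M.pois.jacobi]
  leibniz a b c := by
    rw [M.pois.leibniz]
    ring

/-- The opposite Poisson scheme. -/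
def PAlg.neg (M : PAlg) : PAlg where
  A := M.A
  ft := M.ft
  br a b := - M.br a b
  pois := neg_pois M

variable {G H : AffGrp} (M : Ham G H)

theorem act_neg (g : G.X) (h : H.X) (a : M.M.A) : M.act g h (- a) = - M.act g h a := by
  have := (M.ham.hom g h).2.2.2 (-1) a
  rwa [neg_one_smul, neg_one_smul] at this

theorem neg_act (g : G.X) (h : H.X) (a b : M.M.A) :
    M.act g h (- M.M.br a b) = - M.M.br (M.act g h a) (M.act g h b) := by
  rw [act_neg, M.ham.br]

theorem neg_gen (v a : M.M.A) : - M.M.br (- v) a = M.M.br v a := by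
  rw [M.M.neg_br, neg_neg]

theorem neg_lin {V : Type} [AddCommGroup V] [Module ℂ V] {φ : V → M.M.A} (h : IsLinearMap ℂ φ) :
    IsLinearMap ℂ (fun D => - φ D) where
  map_add x y := by rw [h.map_add, neg_add]
  map_smul c x := by rw [h.map_smul, smul_neg]

theorem neg_ham : IsHam M.M.neg M.act (fun D => - M.μ D) (fun D => - M.ν D) where
  one := M.ham.one
  mul := M.ham.mul
  hom := M.ham.hom
  br g h a b := neg_act M g h a b
  rat := M.ham.rat
  μ_lin := neg_lin M M.ham.μ_lin
  ν_lin := neg_lin M M.ham.ν_lin
  μ_eq g h D := (act_neg M g h (M.μ D)).trans (congrArg (fun x : M.M.A => - x) (M.ham.μ_eq g h D))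
  ν_eq g h D := (act_neg M g h (M.ν D)).trans (congrArg (fun x : M.M.A => - x) (M.ham.ν_eq g h D))
  μ_gen D a n f c h := (neg_gen M (M.μ D) a).trans (M.ham.μ_gen D a n f c h)
  ν_gen D a n f c h := (congrArg (fun x : M.M.A => - x) (neg_gen M (M.ν D) a)).trans
    (M.ham.ν_gen D a n f c h)

/-- The opposite: the bracket and the moment maps are negated. -/
def Ham.neg : Ham G H where
  M := M.M.neg
  act := M.act
  μ D := - M.μ D
  ν D := - M.ν D
  ham := neg_ham M

end opposite

section tensor
variable (M N : PAlg)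

/-- The functions on `M × N`. -/
def TP : Type := M.A ⊗[ℂ] N.A

noncomputable instance : CommRing (TP M N) := (inferInstance : CommRing (M.A ⊗[ℂ] N.A))
noncomputable instance : Algebra ℂ (TP M N) := (inferInstance : Algebra ℂ (M.A ⊗[ℂ] N.A))

variable {M N}

/-- The function `(m, n) ↦ a(m) b(n)`. -/
def tm (a : M.A) (b : N.A) : TP M N := a ⊗ₜ[ℂ] b

/-- `B` is the bracket of the product `M × N`. -/
def IsBr (B : TP M N → TP M N → TP M N) : Prop :=
  (∀ x y z, B (x + y) z = B x z + B y z) ∧ (∀ x y z, B x (y + z) = B x y + B x z) ∧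
    ∀ a b a' b', B (tm a b) (tm a' b') = tm (M.br a a') (b * b') + tm (a * a') (N.br b b')

end tensor

section comp
variable {G H K : AffGrp} (M : Ham G H) (N : Ham H K)

/-- `T` is the action of `G × H × K` on `M × N` (`H` acts diagonally). -/
def IsAct (T : G.X → H.X → K.X → TP M.M N.M → TP M.M N.M) : Prop :=
  (∀ g h k x y, T g h k (x + y) = T g h k x + T g h k y) ∧
    ∀ g h k a b, T g h k (tm a b) = tm (M.act g h a) (N.act h k b)

/-- The function `x` vanishes on the zero fibre of the moment map `ν_M - μ_N` of `H` on `M × N`: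
it is in the ideal generated by its components. -/
def Zero (x : TP M.M N.M) : Prop :=
  x ∈ Ideal.span {y | ∃ D : Lie H, y = tm (M.ν D) 1 - tm 1 (N.μ D)}

/-- The restriction of the function `x` to the zero fibre is `H`-invariant. -/
def Inv (T : G.X → H.X → K.X → TP M.M N.M → TP M.M N.M) (x : TP M.M N.M) : Prop :=
  ∀ h, Zero M N (T 1 h 1 x - x)

/-- `P` is the Hamiltonian reduction at level `0` of `M × N` by `H`: with `T` the action of
`G × H × K` and `B` the bracket on `M × N`, there is a surjective homomorphism `φ` from the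
functions on `M × N` that are `H`-invariant on the zero fibre of the moment map of `H` onto the
functions on `P`, whose kernel are the functions vanishing on the zero fibre; the bracket, the
action of `G × K` and the moment maps of `P` are induced by those of `M × N`. -/
def IsComp (P : Ham G K) : Prop :=
  ∃ (T : G.X → H.X → K.X → TP M.M N.M → TP M.M N.M) (B : TP M.M N.M → TP M.M N.M → TP M.M N.M)
    (φ : TP M.M N.M → P.M.A), IsAct M N T ∧ IsBr B ∧ φ 1 = 1 ∧
    (∀ x y, Inv M N T x → Inv M N T y → φ (x + y) = φ x + φ y ∧ φ (x * y) = φ x * φ y) ∧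
    (∀ (c : ℂ) x, Inv M N T x → φ (c • x) = c • φ x) ∧
    (∀ p, ∃ x, Inv M N T x ∧ φ x = p) ∧
    (∀ x, Inv M N T x → (φ x = 0 ↔ Zero M N x)) ∧
    (∀ x y, Inv M N T x → Inv M N T y → Inv M N T (B x y) ∧ φ (B x y) = P.M.br (φ x) (φ y)) ∧
    (∀ g k x, Inv M N T x → Inv M N T (T g 1 k x) ∧ φ (T g 1 k x) = P.act g k (φ x)) ∧
    (∀ D, Inv M N T (tm (M.μ D) 1) ∧ φ (tm (M.μ D) 1) = P.μ D) ∧
    ∀ D, Inv M N T (tm 1 (N.ν D)) ∧ φ (tm 1 (N.ν D)) = P.ν D

end comp

section generic
variable (P : PAlg)

/-- The field of fractions of `P` (rational functions). -/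
def Fr : Type := FractionRing P.A

noncomputable instance : CommRing (Fr P) := (inferInstance : CommRing (FractionRing P.A))
noncomputable instance : Algebra P.A (Fr P) := (inferInstance : Algebra P.A (FractionRing P.A))

/-- the function `a` as a rational function -/
noncomputable def fr (a : P.A) : Fr P := algebraMap P.A (Fr P) a

/-- `D` is a `ℂ`-derivation of the functions on `P` with values in the rational functions. -/
def IsVec (D : P.A → Fr P) : Prop :=
  (∀ a b, D (a + b) = D a + D b) ∧ (∀ a b, D (a * b) = fr P a * D b + fr P b * D a) ∧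
    ∀ c : ℂ, D (algebraMap ℂ P.A c) = 0

/-- `P` is an integral variety whose Poisson structure is symplectic on an open dense subset: every
derivation with values in the field of fractions is a combination of Hamiltonian derivations. -/
def InMT : Prop :=
  IsDomain P.A ∧ ∀ D : P.A → Fr P, IsVec P D → ∃ (n : ℕ) (u : Fin n → Fr P) (a : Fin n → P.A),
    ∀ b, D b = ∑ i, u i * fr P (P.br (a i) b)

end generic

end Pool.Agent.MTS
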