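import Pool.Agent.MTS.B

/-!
# MTS : the statement of the Moore–Tachikawa conjecture, part C : the theory

* `Cob I J` : two-dimensional oriented cobordisms (up to diffeomorphism).
* `IsCyl`, `IsUnion`, `IsKostant` : the values on mapping cylinders, disjoint unions and the disc.
* `MTTQFT e f` : there is a two-dimensional topological quantum field theory with values in `MT`
  that sends the circle to `G` and the disc to `G × S`, `S = e + 𝔤_f`.
-/

namespace Pool.Agent.MTS

/-- A two-dimensional oriented cobordism from `I` circles to `J` circles, up to diffeomorphism: the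
finite set `C` of its components, the component `l i`, `r j` containing a given incoming or outgoing
circle, and the genus of each component. -/
structure Cob (I J : Type) where
  C : Type
  [fin : Finite C]
  l : I → C
  r : J → C
  g : C → ℕ

attribute [instance] Cob.fin

namespace Cob

/-- Diffeomorphic cobordisms. -/
def Iso {I J : Type} (S T : Cob I J) : Prop :=
  ∃ e : S.C ≃ T.C, (∀ i, e (S.l i) = T.l i) ∧ (∀ j, e (S.r j) = T.r j) ∧ ∀ c, T.g (e c) = S.g c

/-- The glueing of the components along the circles. -/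
def Glue {I J K : Type} (S : Cob I J) (T : Cob J K) : S.C ⊕ T.C → S.C ⊕ T.C → Prop :=
  fun a b => ∃ j, a = Sum.inl (S.r j) ∧ b = Sum.inr (T.l j)

theorem comp_fin {I J K : Type} (S : Cob I J) (T : Cob J K) : Finite (Quot (S.Glue T)) :=
  Finite.of_surjective (Quot.mk _) Quot.mk_surjective

/-- The composition (glueing along `J`).  A component of the glued surface is a connected graph
whose vertices are components of `S` and `T` and whose edges are circles in `J`; its genus is the
sum of the genera of the vertices plus the number of independent cycles of the graph. -/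
noncomputable def comp {I J K : Type} (S : Cob I J) (T : Cob J K) : Cob I K where
  C := Quot (S.Glue T)
  fin := comp_fin S T
  l i := Quot.mk _ (Sum.inl (S.l i))
  r k := Quot.mk _ (Sum.inr (T.r k))
  g c := (∑ᶠ a ∈ {a | Quot.mk (S.Glue T) a = c}, Sum.elim S.g T.g a) +
    Nat.card {j : J // Quot.mk (S.Glue T) (Sum.inl (S.r j)) = c} + 1 -
    Nat.card {a : S.C ⊕ T.C // Quot.mk (S.Glue T) a = c}

/-- The mapping cylinder of a bijection (the identity for `e = Equiv.refl`). -/
def cyl {I J : Type} [Finite J] (e : I ≃ J) : Cob I J where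
  C := J
  l := e
  r := id
  g := 0

/-- Disjoint union. -/
def union {I J I' J' : Type} (S : Cob I J) (T : Cob I' J') : Cob (I ⊕ I') (J ⊕ J') where
  C := S.C ⊕ T.C
  l := Sum.map S.l T.l
  r := Sum.map S.r T.r
  g := Sum.elim S.g T.g

/-- The disc, as a cobordism from a circle to the empty set. -/
def disc : Cob PUnit PEmpty where
  C := PUnit
  l := id
  r := PEmpty.elim
  g := 0

end Cob

section cot
variable (G : AffGrp)

/-- The dual `𝔤^*` of the Lie algebra. -/
def LieD : Type := Module.Dual ℂ (Lie G)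

variable {G}

/-- `ξ D` -/
def pr (ξ : LieD G) (D : Lie G) : ℂ := (show Module.Dual ℂ (Lie G) from ξ) D

theorem coAd_lin (x : G.X) (ξ : LieD G) : IsLinearMap ℂ (fun D => pr ξ (Ad x D)) where
  map_add D E := by
    have h : Ad x (D + E) = Ad x D + Ad x E := (G.old.Ad x).map_add D E
    rw [h]
    exact LinearMap.map_add (show Module.Dual ℂ (Lie G) from ξ) _ _
  map_smul c D := by
    have h : Ad x (c • D) = c • Ad x D := (G.old.Ad x).map_smul c D
    rw [h]
    exact LinearMap.map_smul (show Module.Dual ℂ (Lie G) from ξ) _ _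

/-- `ξ ∘ Ad x` -/
def coAd (x : G.X) (ξ : LieD G) : LieD G := (coAd_lin x ξ).mk' _

/-- `F` is a regular function on `T^*G = G × 𝔤^*` (left trivialisation). -/
def CReg (F : G.X → LieD G → ℂ) : Prop :=
  (fun p : G.X × LieD G => F p.1 p.2) ∈
    Algebra.adjoin ℂ {F | (∃ f : Fn G, F = fun p => ev f p.1) ∨ ∃ D : Lie G, F = fun p => pr p.2 D}

variable (G)

/-- The regular functions on `T^*G = G × 𝔤^*`. -/
def CF : Type := {F : G.X → LieD G → ℂ // CReg F}

variable {G}

/-- the value of a function on `T^*G` at the point `(x, ξ)` -/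
def cv (F : CF G) (x : G.X) (ξ : LieD G) : ℂ := F.1 x ξ

end cot

section slice
variable {G : AffGrp} (e f : Lie G)

/-- The slice `S = e + 𝔤_f`. -/
def Sl : Type := {s : Lie G // br f (s - e) = 0}

variable {e f}

/-- The point `s` of `S` as an element of `𝔤`. -/
def sv (s : Sl e f) : Lie G := s.1

/-- `F` is a regular function on `G × S`. -/
def KReg (F : G.X → Sl e f → ℂ) : Prop :=
  (fun p : G.X × Sl e f => F p.1 p.2) ∈
    Algebra.adjoin ℂ {F | (∃ f : Fn G, F = fun p => ev f p.1) ∨ ∃ l : LieD G, F = fun p => pr l (sv p.2)}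

variable (e f)

/-- The regular functions on `G × S`. -/
def KF : Type := {F : G.X → Sl e f → ℂ // KReg F}

variable {e f}

/-- the value of a function on `G × S` at the point `(x, s)` -/
def kv (F : KF e f) (x : G.X) (s : Sl e f) : ℂ := F.1 x s

theorem kv_mem (F : KF e f) (x : G.X) (s : Sl e f) : (fun y => kv F (x * y) s) ∈ G.O := by
  obtain ⟨F, hF⟩ := F
  change (fun y => F (x * y) s) ∈ G.O
  have key : ∀ F' : G.X × Sl e f → ℂ, F' ∈ Algebra.adjoin ℂ
      {F | (∃ f : Fn G, F = fun p => ev f p.1) ∨ ∃ l : LieD G, F = fun p => pr l (sv p.2)} →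
      (fun y => F' (x * y, s)) ∈ G.O := by
    intro F' hF'
    induction hF' using Algebra.adjoin_induction with
    | mem F hF =>
      rcases hF with ⟨f, rfl⟩ | ⟨l, rfl⟩
      · exact lt_mem x f
      · exact Subalgebra.algebraMap_mem _ (pr l (sv s))
    | algebraMap c => exact Subalgebra.algebraMap_mem _ c
    | add F F' _ _ ih ih' => exact Subalgebra.add_mem _ ih ih'
    | mul F F' _ _ ih ih' => exact Subalgebra.mul_mem _ ih ih'
  exact key _ hF

theorem sadd_mem (s : Sl e f) (v : Lie G) (hv : br f v = 0) (t : ℂ) :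
    br f (sv s + t • v - e) = 0 := by
  have h := s.2
  have h1 : sv s + t • v - e = (sv s - e) + t • v := by abel
  rw [h1, (ad_lin f).map_add, (ad_lin f).map_smul, hv, smul_zero, add_zero]
  exact h

/-- `s + t v` -/
def sadd (s : Sl e f) (v : Lie G) (hv : br f v = 0) (t : ℂ) : Sl e f :=
  ⟨sv s + t • v, sadd_mem s v hv t⟩

/-- The derivative of the function `F` on `G × S` at `(x, s)` in the direction of the tangent vector
`(D, v)`, `D ∈ 𝔤` (left trivialisation), `v ∈ 𝔤_f`. -/
noncomputable def dF (F : KF e f) (x : G.X) (s : Sl e f) (D v : Lie G) (hv : br f v = 0) : ℂ :=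
  ap D (mkF (fun y => kv F (x * y) s) (kv_mem F x s)) + deriv (fun t : ℂ => kv F x (sadd s v hv t)) 0

end slice

section theory
variable (G : AffGrp)

/-- `P` is the cotangent bundle of `G^I` with the actions of `G^I` (by left multiplication) and of
`G^J` (by right multiplication, through the bijection `u : I ≃ J`). For `u = Equiv.refl` this is the
identity morphism of `G^I`, in general it is the isomorphism of `G^I` and `G^J` given by `u`. -/
def IsCyl {I J : Type} [Finite I] [Finite J] (u : I ≃ J) (P : Ham (G.pow I) (G.pow J)) : Prop :=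
  ∃ Θ : P.M.A → CF (G.pow I), Function.Bijective Θ ∧ (∀ x ξ, IsHom fun a => cv (Θ a) x ξ) ∧
    (∀ h k a x ξ, cv (Θ (P.act h k a)) x ξ = cv (Θ a) (h⁻¹ * x * rb G u k) (coAd (rb G u k) ξ)) ∧
    (∀ D x ξ, cv (Θ (P.μ D)) x ξ = pr ξ (Ad x⁻¹ D)) ∧
    (∀ D x ξ, cv (Θ (P.ν D)) x ξ = pr ξ (lmap G u D)) ∧
    ∀ a b, (∀ x ξ η, cv (Θ a) x ξ = cv (Θ a) x η) → (∀ x ξ η, cv (Θ b) x ξ = cv (Θ b) x η) →
      P.M.br a b = 0

/-- `P` is the product of `M` and `N`. -/
def IsUnion {I J I' J' : Type} [Finite I] [Finite J] [Finite I'] [Finite J']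
    (M : Ham (G.pow I) (G.pow J)) (N : Ham (G.pow I') (G.pow J'))
    (P : Ham (G.pow (I ⊕ I')) (G.pow (J ⊕ J'))) : Prop :=
  ∃ Θ : TP M.M N.M → P.M.A, Function.Bijective Θ ∧ IsHom Θ ∧
    (∀ a b a' b', P.M.br (Θ (tm a b)) (Θ (tm a' b')) =
      Θ (tm (M.M.br a a') (b * b') + tm (a * a') (N.M.br b b'))) ∧
    (∀ h k a b, P.act h k (Θ (tm a b)) =
      Θ (tm (M.act (rb G Sum.inl h) (rb G Sum.inl k) a) (N.act (rb G Sum.inr h) (rb G Sum.inr k) b))) ∧
    (∀ D, P.μ D = Θ (tm (M.μ (lmap G Sum.inl D)) 1 + tm 1 (N.μ (lmap G Sum.inr D)))) ∧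
    ∀ D, P.ν D = Θ (tm (M.ν (lmap G Sum.inl D)) 1 + tm 1 (N.ν (lmap G Sum.inr D)))

variable {G}

/-- `P` is the symplectic variety `G × S ⊂ T^*G`, `S = e + 𝔤_f`, with `G` acting by left
multiplication and moment map `(x, s) ↦ Ad x s` (`𝔤 = 𝔤^*` by the Killing form). The bracket is
given by the restriction `κ(u, B) - κ(v, A) - κ(s, [A, B])` of the canonical symplectic form:
`{a, b} = d b (X)` for the vector field `X` with `ω(X, -) = d a`. -/
def IsKostant (e f : Lie G) (P : Ham (G.pow PUnit) (G.pow PEmpty)) : Prop :=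
  ∃ Θ : P.M.A → KF e f, Function.Bijective Θ ∧ (∀ x s, IsHom fun a => kv (Θ a) x s) ∧
    (∀ h k a x s, kv (Θ (P.act h k a)) x s = kv (Θ a) ((pt G PUnit.unit h)⁻¹ * x) s) ∧
    (∀ D x s, kv (Θ (P.μ D)) x s = killing (lpr G PUnit.unit D) (Ad x (sv s))) ∧
    ∀ a x s, ∃ (A u : Lie G) (hu : br f u = 0),
      (∀ (B v : Lie G) (hv : br f v = 0),
        killing u B - killing v A - killing (sv s) (br A B) = dF (Θ a) x s B v hv) ∧
      ∀ b, kv (Θ (P.M.br a b)) x s = dF (Θ b) x s A u hu

/-- A two-dimensional topological quantum field theory with values in `MT` that sends the circle to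
`G` and the disc to `G × S`, `S = e + 𝔤_f`: for all finite sets `I`, `J` (of incoming and outgoing
circles) and every cobordism `Σ` a space `η Σ : G^I → G^J`, such that

* diffeomorphic cobordisms have isomorphic spaces,
* `η (Σ' ∘ Σ)` is `(η(Σ)^op × η(Σ')) //_0 G^J` (the composition of `MT`), and it is also the
  reduction of `η(Σ) × η(Σ')`,
* the mapping cylinders of bijections (in particular the identities and the symmetries) are sent to
  the cotangent bundles of `G^I` with the corresponding actions,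
* disjoint unions are sent to products,
* the disc is sent to the Kostant-Whittaker variety `G × S`,
* all `η Σ` are integral, generically symplectic, and isomorphic to their opposites. -/
def MTTQFT (e f : Lie G) : Prop :=
  ∃ η : ∀ (I J : Type) [Finite I] [Finite J], Cob I J → Ham (G.pow I) (G.pow J),
    (∀ (I J : Type) [Finite I] [Finite J] (S T : Cob I J), S.Iso T → (η I J S).Iso (η I J T)) ∧
    (∀ (I J K : Type) [Finite I] [Finite J] [Finite K] (S : Cob I J) (T : Cob J K),
      IsComp (η I J S).neg (η J K T) (η I K (S.comp T)) ∧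
      IsComp (η I J S) (η J K T) (η I K (S.comp T))) ∧
    (∀ (I J : Type) [Finite I] [Finite J] (u : I ≃ J), IsCyl G u (η I J (Cob.cyl u))) ∧
    (∀ (I J I' J' : Type) [Finite I] [Finite J] [Finite I'] [Finite J'] (S : Cob I J)
      (T : Cob I' J'), IsUnion G (η I J S) (η I' J' T) (η (I ⊕ I') (J ⊕ J') (S.union T))) ∧
    IsKostant e f (η PUnit PEmpty Cob.disc) ∧
    ∀ (I J : Type) [Finite I] [Finite J] (S : Cob I J),
      InMT (η I J S).M ∧ (η I J S).Iso (η I J S).neg

end theory

end Pool.Agent.MTS
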