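import Pool.Agent.MTS.C
import Pool.Agent.MTF.PJ

/-!
# MTS : comparison of the statement with the form proved in MTF
-/

namespace Pool.Agent.MTS

open TensorProduct

/-- `P` in the new form -/
def ofP (P : MTF.PAlg) : PAlg where
  A := P.A
  ft := P.ft
  br a b := P.br a b
  pois :=
    { add := fun a b c => map_add _ _ _
      smul := fun t a b => map_smul _ _ _
      anti := fun a b => by
        have h := P.br_self (a + b)
        simp only [map_add, LinearMap.add_apply, P.br_self, zero_add, add_zero] at h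
        exact eq_neg_of_add_eq_zero_right h
      jacobi := P.jacobi
      leibniz := P.leibniz }

section
variable {G H K : AffGrp}

/-- `M` in the new form -/
def ofH (M : MTF.Ham G.old H.old) : Ham G H where
  M := ofP M.toPAlg
  act g h a := M.act (g, h) a
  μ D := M.μ D
  ν D := M.ν D
  ham :=
    { one := fun a => by
        have h : M.act (1, 1) = 1 := M.act.map_one
        show M.act (1, 1) a = a
        rw [h]
        rfl
      mul := fun g h g' h' a => by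
        have h0 : M.act ((g, h) * (g', h')) = M.act (g, h) * M.act (g', h') := M.act.map_mul _ _
        show M.act (g, h) (M.act (g', h') a) = M.act ((g, h) * (g', h')) a
        rw [h0]
        rfl
      hom := fun g h => ⟨map_one (M.act (g, h)), map_add (M.act (g, h)), map_mul (M.act (g, h)),
        map_smul (M.act (g, h))⟩
      br := fun g h a b => M.act_br (g, h) a b
      rat := M.rat
      μ_lin := ⟨M.μ.map_add, M.μ.map_smul⟩
      ν_lin := ⟨M.ν.map_add, M.ν.map_smul⟩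
      μ_eq := M.μ_eq
      ν_eq := M.ν_eq
      μ_gen := M.μ_gen
      ν_gen := fun D a n f c h => neg_eq_iff_eq_neg.2 (M.ν_gen D a n f c h) }

theorem ofH_neg (M : MTF.Ham G.old H.old) : (ofH M).neg = ofH M.neg := rfl

theorem ofH_iso {M N : MTF.Ham G.old H.old} (h : M.Iso N) : (ofH M).Iso (ofH N) := by
  obtain ⟨e, h1, h2, h3, h4⟩ := h
  exact ⟨e, e.bijective, ⟨map_one e, map_add e, map_mul e, map_smul e⟩, h1,
    fun g h a => h2 (g, h) a, h3, h4⟩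

theorem zero_iff (M : MTF.Ham G.old H.old) (N : MTF.Ham H.old K.old) (x : M.A ⊗[ℂ] N.A) :
    Zero (ofH M) (ofH N) x ↔ x ∈ MTF.tI M N := by
  have h : {y : TP (ofH M).M (ofH N).M | ∃ D : Lie H, y = tm ((ofH M).ν D) 1 - tm 1 ((ofH N).μ D)} =
      Set.range fun D : H.old.Lie => M.ν D ⊗ₜ[ℂ] (1 : N.A) - (1 : M.A) ⊗ₜ[ℂ] N.μ D := by
    ext y
    exact ⟨fun ⟨D, hD⟩ => ⟨D, hD.symm⟩, fun ⟨D, hD⟩ => ⟨D, hD.symm⟩⟩
  unfold Zero MTF.tI
  rw [← h]
  rfl

theorem inv_iff (M : MTF.Ham G.old H.old) (N : MTF.Ham H.old K.old) (x : M.A ⊗[ℂ] N.A) :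
    Inv (ofH M) (ofH N) (fun g h k x => MTF.tact M N g h k x) x ↔ x ∈ MTF.tinv M N := by
  constructor
  · intro h h'
    exact (zero_iff M N _).1 (h h')
  · intro h h'
    exact (zero_iff M N _).2 (h h')

theorem ofH_comp {M : MTF.Ham G.old H.old} {N : MTF.Ham H.old K.old} {P : MTF.Ham G.old K.old}
    (h : MTF.IsComp M N P) : IsComp (ofH M) (ofH N) (ofH P) := by
  classical
  obtain ⟨φ, h1, h2, h3, h4, h5, h6, h7, h8, h9, h10⟩ := h
  have hφ : ∀ x : MTF.tinv M N,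
      (if h : x.1 ∈ MTF.tinv M N then φ ⟨x.1, h⟩ else 0) = φ x := fun x => dif_pos x.2
  refine ⟨fun g h k x => MTF.tact M N g h k x, fun x y => MTF.tbr M.toPAlg N.toPAlg x y,
    fun x => if h : x ∈ MTF.tinv M N then φ ⟨x, h⟩ else 0, ?_, ?_, ?_, ?_, ?_, ?_, ?_, ?_, ?_, ?_, ?_⟩
  · exact ⟨fun g h k x y => map_add (MTF.tact M N g h k) x y, fun g h k a b => rfl⟩
  · refine ⟨fun x y z => ?_, fun x y z => ?_, fun a b a' b' => ?_⟩
    · exact (congrFun (congrArg DFunLike.coe (map_add (MTF.tbr M.toPAlg N.toPAlg) x y)) z)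
    · exact map_add (MTF.tbr M.toPAlg N.toPAlg x) y z
    · rfl
  · exact (hφ 1).trans (map_one φ)
  · intro x y hx hy
    have hx' := (inv_iff M N x).1 hx
    have hy' := (inv_iff M N y).1 hy
    have e1 := hφ ⟨x, hx'⟩
    have e2 := hφ ⟨y, hy'⟩
    have e3 := hφ (⟨x, hx'⟩ + ⟨y, hy'⟩)
    have e4 := hφ (⟨x, hx'⟩ * ⟨y, hy'⟩)
    rw [map_add, ← e1, ← e2] at e3
    rw [map_mul, ← e1, ← e2] at e4
    exact ⟨e3, e4⟩
  · intro c x hx
    have hx' := (inv_iff M N x).1 hx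
    have e1 := hφ ⟨x, hx'⟩
    have e3 := hφ (c • ⟨x, hx'⟩)
    rw [map_smul, ← e1] at e3
    exact e3
  · intro p
    obtain ⟨x, hx⟩ := h1 p
    exact ⟨x.1, (inv_iff M N x.1).2 x.2, (hφ x).trans hx⟩
  · intro x hx
    have hx' := (inv_iff M N x).1 hx
    have e1 := hφ ⟨x, hx'⟩
    have e2 := h2 ⟨x, hx'⟩
    rw [← e1] at e2
    exact e2.trans (zero_iff M N x).symm
  · intro x y hx hy
    have hx' := (inv_iff M N x).1 hx
    have hy' := (inv_iff M N y).1 hy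
    have e1 := hφ ⟨x, hx'⟩
    have e2 := hφ ⟨y, hy'⟩
    have e3 := hφ ⟨_, h4 ⟨x, hx'⟩ ⟨y, hy'⟩⟩
    have e4 := h3 ⟨x, hx'⟩ ⟨y, hy'⟩ ⟨_, h4 ⟨x, hx'⟩ ⟨y, hy'⟩⟩ rfl
    rw [e4, ← e1, ← e2] at e3
    exact ⟨(inv_iff M N _).2 (h4 ⟨x, hx'⟩ ⟨y, hy'⟩), e3⟩
  · intro g k x hx
    have hx' := (inv_iff M N x).1 hx
    have e1 := hφ ⟨x, hx'⟩
    have e3 := hφ ⟨_, h6 g k ⟨x, hx'⟩⟩
    have e4 := h5 g k ⟨x, hx'⟩ ⟨_, h6 g k ⟨x, hx'⟩⟩ rfl
    rw [e4, ← e1] at e3
    exact ⟨(inv_iff M N _).2 (h6 g k ⟨x, hx'⟩), e3⟩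
  · intro D
    have e3 := hφ ⟨_, h8 D⟩
    have e4 := h7 D ⟨_, h8 D⟩ rfl
    rw [e4] at e3
    exact ⟨(inv_iff M N _).2 (h8 D), e3⟩
  · intro D
    have e3 := hφ ⟨_, h10 D⟩
    have e4 := h9 D ⟨_, h10 D⟩ rfl
    rw [e4] at e3
    exact ⟨(inv_iff M N _).2 (h10 D), e3⟩

end

end Pool.Agent.MTS
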