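import Pool.Agent.MTS.D

/-!
# MTS : comparison of the statement with the form proved in MTF, second part
-/

namespace Pool.Agent.MTS

open TensorProduct

theorem inMT_of {P : MTF.PAlg} (h : MTF.InMT P) : InMT (ofP P) := by
  refine ⟨h.1, fun D hD => ?_⟩
  obtain ⟨h1, h2, h3⟩ := hD
  let D' : P.A → FractionRing P.A := D
  have k1 : ∀ a b, D' (a + b) = D' a + D' b := h1
  have k2 : ∀ a b, D' (a * b) = algebraMap P.A (FractionRing P.A) a * D' b +
    algebraMap P.A (FractionRing P.A) b * D' a := h2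
  have k3 : ∀ c : ℂ, D' (algebraMap ℂ P.A c) = 0 := h3
  have k4 : ∀ (c : ℂ) (a : P.A), D' (c • a) = c • D' a := by
    intro c a
    rw [Algebra.smul_def, k2, k3, mul_zero, add_zero, Algebra.smul_def,
      IsScalarTower.algebraMap_apply ℂ P.A (FractionRing P.A)]
  let L : P.A →ₗ[ℂ] FractionRing P.A := { toFun := D', map_add' := k1, map_smul' := k4 }
  obtain ⟨n, u, a, hu⟩ := h.2 (Derivation.mk' L fun a b => by
    show D' (a * b) = a • D' b + b • D' a
    rw [k2, Algebra.smul_def, Algebra.smul_def])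
  exact ⟨n, u, a, hu⟩

/-- `S` in the old form -/
def oldC {I J : Type} (S : Cob I J) : MTF.Cob I J where
  C := S.C
  l := S.l
  r := S.r
  g := S.g

theorem old_pow (G : AffGrp) (I : Type) [Finite I] : (G.pow I).old = G.old.pow I := rfl

theorem oldC_iso {I J : Type} {S T : Cob I J} (h : S.Iso T) : (oldC S).Iso (oldC T) := h

theorem oldC_comp {I J K : Type} (S : Cob I J) (T : Cob J K) :
    oldC (S.comp T) = (oldC S).comp (oldC T) := rfl

theorem oldC_cyl {I J : Type} [Finite J] (u : I ≃ J) : oldC (Cob.cyl u) = MTF.Cob.cyl u := rfl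

theorem oldC_union {I J I' J' : Type} (S : Cob I J) (T : Cob I' J') :
    oldC (S.union T) = (oldC S).union (oldC T) := rfl

theorem oldC_disc : oldC Cob.disc = MTF.Cob.disc := rfl

section
variable {G : AffGrp}

/-- the functions on the cotangent bundle -/
def ofCF (G : AffGrp) : G.old.cotO ≃ CF G where
  toFun F := ⟨fun x ξ => F.1 (x, ξ), by
    have h := F.2
    unfold MTF.AffGrp.cotO at h
    exact h⟩
  invFun F := ⟨fun p => F.1 p.1 p.2, by
    have h := F.2
    unfold MTF.AffGrp.cotO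
    exact h⟩
  left_inv _ := rfl
  right_inv _ := rfl

theorem isHom_pt {A Y : Type} [CommRing A] [Algebra ℂ A] {S : Subalgebra ℂ (Y → ℂ)}
    (Θ : A ≃ₐ[ℂ] S) (p : Y) : IsHom (fun a => (Θ a).1 p) := by
  refine ⟨?_, fun a b => ?_, fun a b => ?_, fun c a => ?_⟩
  · show (Θ 1).1 p = 1
    rw [map_one]
    rfl
  · show (Θ (a + b)).1 p = (Θ a).1 p + (Θ b).1 p
    rw [map_add]
    rfl
  · show (Θ (a * b)).1 p = (Θ a).1 p * (Θ b).1 p
    rw [map_mul]
    rfl
  · show (Θ (c • a)).1 p = c • (Θ a).1 p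
    rw [map_smul]
    rfl

theorem ofH_cyl {I J : Type} [Finite I] [Finite J] {u : I ≃ J}
    {P : MTF.Ham (G.old.pow I) (G.old.pow J)} (h : MTF.IsCyl G.old u P) :
    IsCyl G u (ofH (G := G.pow I) (H := G.pow J) P) := by
  obtain ⟨Θ, h1, h2, h3, h4⟩ := h
  refine ⟨fun a => ofCF (G.pow I) (Θ a), (ofCF (G.pow I)).bijective.comp Θ.bijective, ?_, ?_, ?_, ?_, ?_⟩
  · intro x ξ
    exact isHom_pt Θ (x, ξ)
  · exact h1
  · exact h2
  · exact h3
  · exact h4

theorem ofH_union {I J I' J' : Type} [Finite I] [Finite J] [Finite I'] [Finite J']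
    {M : MTF.Ham (G.old.pow I) (G.old.pow J)} {N : MTF.Ham (G.old.pow I') (G.old.pow J')}
    {P : MTF.Ham (G.old.pow (I ⊕ I')) (G.old.pow (J ⊕ J'))} (h : MTF.IsUnion G.old M N P) :
    IsUnion G (ofH (G := G.pow I) (H := G.pow J) M) (ofH (G := G.pow I') (H := G.pow J') N)
      (ofH (G := G.pow (I ⊕ I')) (H := G.pow (J ⊕ J')) P) := by
  obtain ⟨Θ, h1, h2, h3, h4⟩ := h
  refine ⟨Θ, Θ.bijective, ⟨map_one Θ, map_add Θ, map_mul Θ, map_smul Θ⟩, ?_, ?_, ?_, ?_⟩
  · intro a b a' b'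
    exact (h1 (a ⊗ₜ b) (a' ⊗ₜ b')).symm
  · exact h2
  · exact h3
  · exact h4

/-- the functions on `G × S` -/
def ofKF {e f : Lie G} : G.old.slO e f ≃ KF e f where
  toFun F := ⟨fun x s => F.1 (x, s), by
    have h := F.2
    unfold MTF.AffGrp.slO at h
    exact h⟩
  invFun F := ⟨fun p => F.1 p.1 p.2, by
    have h := F.2
    unfold MTF.AffGrp.slO
    exact h⟩
  left_inv _ := rfl
  right_inv _ := rfl

theorem ofH_kostant {e f : Lie G}
    {P : MTF.Ham (G.old.pow PUnit) (G.old.pow PEmpty)} (h : MTF.IsKostant G.old e f P) :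
    IsKostant e f (ofH (G := G.pow PUnit) (H := G.pow PEmpty) P) := by
  obtain ⟨Θ, h1, h2, h3⟩ := h
  refine ⟨fun a => ofKF (Θ a), ofKF.bijective.comp Θ.bijective, ?_, ?_, ?_, ?_⟩
  · intro x s
    exact isHom_pt Θ (x, s)
  · exact h1
  · exact h2
  · exact h3

/-- the new form of the statement -/
theorem mttqft_of {e f : Lie G} (h : MTF.MTTQFT G.old e f) : MTTQFT e f := by
  obtain ⟨η, h1, h2, h3, h4, h5, h6⟩ := h
  refine ⟨fun I J _ _ S => ofH (G := G.pow I) (H := G.pow J) (η I J (oldC S)), ?_, ?_, ?_, ?_, ?_, ?_⟩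
  · intro I J _ _ S T hST
    exact ofH_iso (G := G.pow I) (H := G.pow J) (h1 I J _ _ (oldC_iso hST))
  · intro I J K _ _ _ S T
    obtain ⟨a, b⟩ := h2 I J K (oldC S) (oldC T)
    exact ⟨ofH_comp (G := G.pow I) (H := G.pow J) (K := G.pow K) a,
      ofH_comp (G := G.pow I) (H := G.pow J) (K := G.pow K) b⟩
  · intro I J _ _ u
    exact ofH_cyl (h3 I J u)
  · intro I J I' J' _ _ _ _ S T
    exact ofH_union (h4 I J I' J' (oldC S) (oldC T))
  · exact ofH_kostant h5
  · intro I J _ _ S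
    obtain ⟨a, b⟩ := h6 I J (oldC S)
    exact ⟨inMT_of a, ofH_iso (G := G.pow I) (H := G.pow J) b⟩

end

end Pool.Agent.MTS
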