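import Pool.Agent.MTS.E
import Pool.Agent.MTF.PK
import Pool.Agent.MTG.YR
import Pool.Agent.MTG.YT

/-!
# MTS : the Moore–Tachikawa conjecture
-/

namespace Pool.Agent.MTS

open Pool.Agent.MTG Pool.Agent.MTH

theorem exists_princ (G : AffGrp) (hd : IsDomain G.O)
    (hk : ∀ D : Lie G, (∀ E : Lie G, killing D E = 0) → D = 0) :
    ∃ e h f : Lie G, Principal e h f := by
  have hG : G.old.Semi := ⟨hd, hk⟩
  obtain ⟨e, h, f, hp⟩ := exists_principal hG
  exact ⟨e, h, f, hp⟩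

theorem old_mttqft (G : MTF.AffGrp) (hG : G.Semi) {e h f : G.Lie} (hp : MTF.Principal G e h f) :
    MTF.MTTQFT G e f := by
  obtain ⟨n, D, C, he, -, hf⟩ := Principal.exists_std hG hp
  subst he
  subst hf
  obtain ⟨rho, hP⟩ := C.exists_PQ hG
  obtain ⟨γ, hO⟩ := C.exists_PO rho
  exact MTF.mttqft_of_data (exists_TQ hG C) hP hO hG.dom (hFin_d hG C)

theorem mttqft_new (G : AffGrp) (hd : IsDomain G.O)
    (hk : ∀ D : Lie G, (∀ E : Lie G, killing D E = 0) → D = 0) {e h f : Lie G}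
    (hp : Principal e h f) : MTTQFT e f :=
  mttqft_of (old_mttqft G.old ⟨hd, hk⟩ hp)

end Pool.Agent.MTS
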